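import Pool.Agent.H37.CNE.Stmts

/-!
# Row SLE: existence of the data of the `SL_2` cover
-/

set_option autoImplicit false

namespace Pool.CND

open Finset Matrix

/-- an element of positive order is not algebraic over the constants -/
theorem tr_of_pos {k L : Type} [Field k] [Field L] [Algebra k L] (P : Place k L) (x : L)
    (hx : x ≠ 0) (h : 0 < P.ord x) : Transcendental k x := by
  intro ha
  have hi : IsIntegral k x := ha.isIntegral
  have h0 : (minpoly k x).coeff 0 ≠ 0 := by
    intro h0
    exact hx ((minpoly.coeff_zero_eq_zero hi).1 h0)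
  have h1 : Polynomial.aeval x (minpoly k x) = 0 := minpoly.aeval k x
  have h2 : minpoly k x = Polynomial.X * (minpoly k x).divX
      + Polynomial.C ((minpoly k x).coeff 0) := (Polynomial.X_mul_divX_add _).symm
  rw [h2] at h1
  simp only [map_add, map_mul, Polynomial.aeval_X, Polynomial.aeval_C] at h1
  have h3 : P.Ge (Polynomial.aeval x (minpoly k x).divX) 0 := by
    rw [Polynomial.aeval_eq_sum_range]
    refine P.ge_sum _ _ _ fun i _ => ?_
    rw [Algebra.smul_def]
    have h4 := P.ge_mul (P.ge_const ((minpoly k x).divX.coeff i))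
      (Or.inr (le_of_eq (P.ord_pow hx i).symm) : P.Ge (x ^ i) (i * P.ord x))
    refine P.ge_mono h4 ?_
    positivity
  have h5 := P.ge_mul (P.ge_ord x) h3
  have h6 : algebraMap k L ((minpoly k x).coeff 0)
      = -(x * Polynomial.aeval x (minpoly k x).divX) := by
    linear_combination h1
  have h7 : P.Ge (algebraMap k L ((minpoly k x).coeff 0)) (P.ord x + 0) := by
    rw [h6]
    exact P.ge_neg h5
  rcases h7 with h7 | h7
  · exact h0 ((map_eq_zero _).1 h7)
  · rw [P.ord_const _ h0] at h7
    omega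

theorem tr_of_ne {k L : Type} [Field k] [Field L] [Algebra k L] (P : Place k L) (x : L)
    (hx : x ≠ 0) (h : P.ord x ≠ 0) : Transcendental k x := by
  rcases lt_or_gt_of_ne h with h | h
  · have h1 : Transcendental k x⁻¹ := tr_of_pos P x⁻¹ (inv_ne_zero hx) (by
      rw [P.ord_inv hx]; omega)
    intro ha
    exact h1 (IsAlgebraic.inv ha)
  · exact tr_of_pos P x hx h

theorem sle_thm (h1 : S_SRL) (h2 : S_LSP) (h3 : S_SBP) (h4 : S_SLS) (h5 : S_SLD)
    (h6 : S_SLG) : S_SLE := by
  intro p k F _ _ _ f q m hp hc hf hq hF hm hcop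
  obtain ⟨S, X, Y, hS, hX, hY, oS, oX, oY, e1, e2, e3⟩ := h1 p k f m q hp hc hf hq hm hcop
  obtain ⟨Λ, hΛ⟩ := h2 k
  have hq2 : 2 ≤ q := by
    rw [hq]
    calc 2 ≤ p := hp.two_le
      _ = p ^ 1 := (pow_one p).symm
      _ ≤ p ^ f := Nat.pow_le_pow_right hp.pos hf
  have hmp : Nat.Coprime m p := Nat.Coprime.coprime_mul_right_right hcop
  have hmq1 : Nat.Coprime m (q - 1) := Nat.Coprime.coprime_mul_left_right hcop
  have hmq : Nat.Coprime m q := by
    rw [hq]
    exact hmp.pow_right f
  rw [← hΛ S hS] at oS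
  rw [← hΛ X hX] at oX
  rw [← hΛ Y hY] at oY
  -- an element of order one
  have hcp : IsCoprime ((q * (q - 1) : ℕ) : ℤ) (m : ℤ) := by
    rw [Nat.isCoprime_iff_coprime]
    exact (hmq.mul_right hmq1).symm
  obtain ⟨u, v, huv⟩ := hcp
  let E : IntermediateField k (LaurentSeries k) :=
    IntermediateField.adjoin k ({S, X, Y} : Set (LaurentSeries k))
  have hSE : S ∈ E := IntermediateField.subset_adjoin k _ (by simp)
  have hXE : X ∈ E := IntermediateField.subset_adjoin k _ (by simp)
  have hYE : Y ∈ E := IntermediateField.subset_adjoin k _ (by simp)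
  have hzE : S ^ (-u) * Y ^ (-v) ∈ E := mul_mem (zpow_mem hSE _) (zpow_mem hYE _)
  have hz0 : S ^ (-u) * Y ^ (-v) ≠ 0 := mul_ne_zero (zpow_ne_zero _ hS) (zpow_ne_zero _ hY)
  have hz1 : Λ.ord (S ^ (-u) * Y ^ (-v)) = 1 := by
    rw [Λ.ord_mul _ _ (zpow_ne_zero _ hS) (zpow_ne_zero _ hY), Λ.ord_zpow hS, Λ.ord_zpow hY,
      oS, oY]
    linear_combination huv
  obtain ⟨P, hP⟩ := h3 k (LaurentSeries k) Λ E ⟨_, hzE⟩
    (fun h => hz0 (congrArg Subtype.val h)) hz1
  let s : E := ⟨S, hSE⟩
  let x : E := ⟨X, hXE⟩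
  let y : E := ⟨Y, hYE⟩
  have hs0 : s ≠ 0 := fun h => hS (congrArg Subtype.val h)
  have hx0 : x ≠ 0 := fun h => hX (congrArg Subtype.val h)
  have hy0 : y ≠ 0 := fun h => hY (congrArg Subtype.val h)
  have f1 : x ^ (q ^ 2) + x = s ^ m * x ^ q := Subtype.ext e1
  have f2 : y ^ (q ^ 2) + y = s ^ m * y ^ q := Subtype.ext e2
  have f3 : x * y ^ q - x ^ q * y = 1 := Subtype.ext e3
  have htop : (⊤ : IntermediateField k E).map E.val = E := by
    rw [← AlgHom.fieldRange_eq_map, IntermediateField.fieldRange_val]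
  have hms : (IntermediateField.adjoin k {s}).map E.val
      = IntermediateField.adjoin k {S} := by
    rw [IntermediateField.adjoin_map, Set.image_singleton]
    rfl
  have hmx : (IntermediateField.adjoin k {x}).map E.val
      = IntermediateField.adjoin k {X} := by
    rw [IntermediateField.adjoin_map, Set.image_singleton]
    rfl
  have hadj : IntermediateField.adjoin k {s, x, y} = ⊤ := by
    apply IntermediateField.map_injective E.val
    rw [htop, IntermediateField.adjoin_map]
    simp only [Set.image_insert_eq, Set.image_singleton]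
    rfl
  have hfin : Module.finrank (IntermediateField.adjoin k {s}) E = q * (q ^ 2 - 1) := by
    rw [← IntermediateField.relfinrank_top_right,
      ← IntermediateField.relfinrank_map_map _ _ E.val, htop, hms]
    exact h5 k (LaurentSeries k) Λ q m S X Y hq2 hm hmq hmq1 hS hX hY oS oX oY e1 e3
  obtain ⟨ρ, a1, a2, a3, a4⟩ := h6 p k F E f q m s x y hp hc hf hq hF f1 f2 f3 hadj hfin
  have ops : P.ord s = -((q * (q - 1) : ℕ) : ℤ) := by rw [hP]; exact oS
  refine ⟨E, inferInstance, inferInstance, s, x, y, ρ, P, ?_⟩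
  exact {
    eq_x := f1
    eq_y := f2
    eq_xy := f3
    act_s := a1
    act_x := a2
    act_y := a3
    s_ne := hs0
    x_ne := hx0
    y_ne := hy0
    ord_s := ops
    ord_x := by rw [hP]; exact oX
    ord_y := by rw [hP]; exact oY
    tr := by
      refine tr_of_ne P s hs0 ?_
      rw [ops]
      have h7 : 0 < q * (q - 1) := Nat.mul_pos (by omega) (by omega)
      omega
    fixed := a4
    span := by
      intro z
      obtain ⟨c, hc1, hc2⟩ := h4 k (LaurentSeries k) q m S X Y hq2 hm hX e1 e3 (z : LaurentSeries k)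
        z.2
      have hd : ∀ i j, ∃ d : E, d ∈ IntermediateField.adjoin k {x} ∧ (d : LaurentSeries k) = c i j := by
        intro i j
        have h8 := hc1 i j
        rw [← hmx] at h8
        obtain ⟨d, hd1, hd2⟩ := h8
        exact ⟨d, hd1, hd2⟩
      choose d hd1 hd2 using hd
      refine ⟨d, hd1, ?_⟩
      apply Subtype.ext
      rw [hc2]
      push_cast
      refine Finset.sum_congr rfl fun i _ => Finset.sum_congr rfl fun j _ => ?_
      rw [hd2] }

end Pool.CND
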